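import Mathlib

/- DO NOT CHANGE the definitions part (down to the line END OF DEFS) -/

set_option autoImplicit false

open Polynomial

namespace Pool.Agent.H497.FF

noncomputable section

variable (F : Type) [Field F] [Fintype F]

theorem finite_monic (k : ℕ) : {D : F[X] | D.Monic ∧ D.natDegree = k}.Finite := by
  classical
  have : Set.Finite (Set.range (fun c : Fin (k + 1) → F => ∑ i : Fin (k + 1), C (c i) * X ^ (i : ℕ))) :=
    Set.finite_range _
  refine this.subset ?_
  rintro D ⟨_, hD⟩
  refine ⟨fun i => D.coeff i, ?_⟩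
  have h := D.as_sum_range_C_mul_X_pow
  rw [hD] at h
  conv_rhs => rw [h]
  exact Fin.sum_univ_eq_sum_range (fun i => C (D.coeff i) * X ^ i) (k + 1)

/-- monic polynomials of degree `k` -/
def mon (k : ℕ) : Finset F[X] := (finite_monic F k).toFinset

theorem mem_mon {k : ℕ} {D : F[X]} : D ∈ mon F k ↔ D.Monic ∧ D.natDegree = k := by
  simp [mon]

open Classical in
/-- monic irreducible polynomials of degree `k` (the places of degree `k` of `F(t)` other than infinity
when `k = 1`) -/
def irr (k : ℕ) : Finset F[X] := (mon F k).filter Irreducible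

theorem mem_irr {k : ℕ} {D : F[X]} : D ∈ irr F k ↔ D.Monic ∧ D.natDegree = k ∧ Irreducible D := by
  simp [irr, mem_mon, and_assoc]

variable {F}

/-- a (normalised, unitary) Hecke character of `F(t)` of modulus `f * infinity^m`, given by its values at
monic polynomials -/
structure IsHecke (f : F[X]) (m : ℕ) (χ : F[X] → ℂ) : Prop where
  monic : f.Monic
  one : χ 1 = 1
  mul : ∀ D E : F[X], D.Monic → E.Monic → χ (D * E) = χ D * χ E
  supp : ∀ D : F[X], D.Monic → (χ D ≠ 0 ↔ IsCoprime D f)
  cong : ∀ D E : F[X], D.Monic → E.Monic → f ∣ D - E → X ^ m ∣ D.reverse - E.reverse → χ D = χ E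
  zero : ∀ D : F[X], ¬ D.Monic → χ D = 0

/-- `χ` is not the trivial character -/
def Nontriv (χ : F[X] → ℂ) : Prop := ∃ D : F[X], D.Monic ∧ χ D ≠ 0 ∧ χ D ≠ 1

/-- primitive Hecke characters: `f * infinity^m` is the exact conductor (up to the tame part at infinity) -/
def IsPrim (f : F[X]) (m : ℕ) (χ : F[X] → ℂ) : Prop :=
  IsHecke f m χ ∧ ∀ (f' : F[X]) (m' : ℕ) (χ' : F[X] → ℂ), IsHecke f' m' χ' →
    (∀ D : F[X], D.Monic → IsCoprime D f → IsCoprime D f' → χ D = χ' D) → f ∣ f' ∧ m ≤ m'

/-- power sums of a completely multiplicative function over primes: `T_r = ∑_{e deg P = r} deg P χ(P)^e` -/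
def TT (χ : F[X] → ℂ) (r : ℕ) : ℂ :=
  ∑ d ∈ r.divisors, (d : ℂ) * ∑ P ∈ irr F d, χ P ^ (r / d)

variable (F)

/-- the points of `F_{q^r}` inside the algebraic closure -/
def fix (r : ℕ) : Finset (AlgebraicClosure F) := by
  classical
  exact ((X ^ (Fintype.card F ^ r) - X : (AlgebraicClosure F)[X]).roots).toFinset

theorem mem_fix {r : ℕ} (hr : r ≠ 0) {a : AlgebraicClosure F} :
    a ∈ fix F r ↔ a ^ (Fintype.card F ^ r) = a := by
  classical
  have h1 : 1 < Fintype.card F ^ r := Nat.one_lt_pow hr Fintype.one_lt_card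
  have h0 : (X ^ (Fintype.card F ^ r) - X : (AlgebraicClosure F)[X]) ≠ 0 :=
    FiniteField.X_pow_card_sub_X_ne_zero _ h1
  simp [fix, Multiset.mem_toFinset, mem_roots h0, IsRoot.def, sub_eq_zero]

variable {F}

/-- the norm polynomial `∏_{i<r} (X - a^{q^i})` of `a ∈ F_{q^r}`, as a polynomial over `F` -/
def DD (r : ℕ) (a : AlgebraicClosure F) : F[X] :=
  (minpoly F a) ^ (r / (minpoly F a).natDegree)

/-- homogenised evaluation: `∑_j D_j e0^j e1^(r-j)` -/
def homEval {R : Type} [CommRing R] [Algebra F R] (e0 e1 : R) (r : ℕ) (D : F[X]) : R :=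
  ∑ j ∈ Finset.range (r + 1), algebraMap F R (D.coeff j) * e0 ^ j * e1 ^ (r - j)

end

end Pool.Agent.H497.FF

/- END OF DEFS -/

namespace Pool.Agent.H497.FF

open Polynomial



/-! ### auxiliary results -/

theorem card_fix_le {F : Type} [Field F] [Fintype F] {r : ℕ} (hr : r ≠ 0) :
    (fix F r).card ≤ Fintype.card F ^ r := by
  classical
  have h1 : 1 < Fintype.card F ^ r := Nat.one_lt_pow hr Fintype.one_lt_card
  unfold fix
  refine (Multiset.toFinset_card_le _).trans ((Polynomial.card_roots' _).trans ?_)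
  rw [FiniteField.X_pow_card_sub_X_natDegree_eq _ h1]

theorem mem_range_of_pow {F : Type} [Field F] [Fintype F] {x : AlgebraicClosure F}
    (hx : x ^ Fintype.card F = x) : x ∈ Set.range (algebraMap F (AlgebraicClosure F)) := by
  classical
  have hx1 : x ∈ fix F 1 := by
    rw [mem_fix F one_ne_zero, pow_one]; exact hx
  set S : Finset (AlgebraicClosure F) := Finset.univ.image (algebraMap F (AlgebraicClosure F))
    with hS
  have hSc : S.card = Fintype.card F := by
    rw [hS, Finset.card_image_of_injective _ (algebraMap F (AlgebraicClosure F)).injective,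
      Finset.card_univ]
  have hsub : S ⊆ fix F 1 := by
    intro y hy
    rw [hS, Finset.mem_image] at hy
    obtain ⟨c, -, rfl⟩ := hy
    rw [mem_fix F one_ne_zero, pow_one, ← map_pow, FiniteField.pow_card]
  have heq : S = fix F 1 := by
    refine Finset.eq_of_subset_of_card_le hsub ?_
    rw [hSc]
    have := card_fix_le (F := F) one_ne_zero
    rwa [pow_one] at this
  rw [← heq, hS, Finset.mem_image] at hx1
  obtain ⟨c, -, hc⟩ := hx1
  exact ⟨c, hc⟩

theorem prod_per {M : Type*} [CommMonoid M] (f : ℕ → M) {d : ℕ} (hf : ∀ i, f (d + i) = f i)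
    (k : ℕ) : ∏ i ∈ Finset.range (d * k), f i = (∏ i ∈ Finset.range d, f i) ^ k := by
  induction k with
  | zero => simp
  | succ k ih =>
    rw [Nat.mul_succ, add_comm, Finset.prod_range_add, pow_succ, mul_comm, ← ih]
    congr 1
    exact Finset.prod_congr rfl fun i _ => hf i

theorem frob_iter {F : Type} [Field F] [Fintype F] (p : F[X]) (a : AlgebraicClosure F) (i : ℕ)
    (h : aeval a p = 0) : aeval (a ^ (Fintype.card F ^ i)) p = 0 := by
  induction i with
  | zero => simpa using h
  | succ i ih =>
    have h2 := Polynomial.aeval_algHom_apply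
      (FiniteField.frobeniusAlgHom F (AlgebraicClosure F)) (a ^ (Fintype.card F ^ i)) p
    rw [ih, map_zero] at h2
    rw [FiniteField.coe_frobeniusAlgHom] at h2
    simp only at h2
    rw [← pow_mul, ← pow_succ] at h2
    exact h2

theorem core {F : Type} [Field F] [Fintype F] {r : ℕ} (hr : r ≠ 0) {a : AlgebraicClosure F}
    (ha : a ^ (Fintype.card F ^ r) = a) :
    0 < (minpoly F a).natDegree ∧ (minpoly F a).natDegree ∣ r ∧
    a ^ (Fintype.card F ^ (minpoly F a).natDegree) = a ∧
    Set.InjOn (fun i => a ^ (Fintype.card F ^ i)) (Set.Iio (minpoly F a).natDegree) ∧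
    (minpoly F a).map (algebraMap F (AlgebraicClosure F)) =
      ∏ i ∈ Finset.range (minpoly F a).natDegree, (X - C (a ^ (Fintype.card F ^ i))) := by
  classical
  set q := Fintype.card F with hq
  set φ : AlgebraicClosure F → AlgebraicClosure F := fun x => x ^ q with hφ
  have hit : ∀ i, φ^[i] a = a ^ (q ^ i) := by
    intro i
    rw [hφ, pow_iterate]
  have hper : Function.IsPeriodicPt φ r a := by
    rw [Function.IsPeriodicPt, Function.IsFixedPt, hit]; exact ha
  set d := Function.minimalPeriod φ a with hd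
  have hd0 : 0 < d := hper.minimalPeriod_pos (Nat.pos_of_ne_zero hr)
  have hdr : d ∣ r := hper.minimalPeriod_dvd
  have had : a ^ (q ^ d) = a := by
    rw [← hit]; exact Function.isPeriodicPt_minimalPeriod φ a
  have hinj : Set.InjOn (fun i => a ^ (q ^ i)) (Set.Iio d) := by
    have := Function.iterate_injOn_Iio_minimalPeriod (f := φ) (x := a)
    intro i hi j hj hij
    refine this hi hj ?_
    simp only [hit]
    exact hij
  set f : ℕ → (AlgebraicClosure F)[X] := fun i => X - C (a ^ (q ^ i)) with hf
  set g := ∏ i ∈ Finset.range d, f i with hg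
  have hgm : g.Monic := Polynomial.monic_prod_of_monic _ _ fun i _ => monic_X_sub_C _
  have hgd : g.natDegree = d := by
    rw [hg, Polynomial.natDegree_prod_of_monic _ _ fun i _ => monic_X_sub_C _,
      Finset.sum_congr rfl fun i _ => natDegree_X_sub_C _]
    simp
  set ψ : AlgebraicClosure F →+* AlgebraicClosure F :=
    (FiniteField.frobeniusAlgHom F (AlgebraicClosure F) : AlgebraicClosure F →+* AlgebraicClosure F)
    with hψ
  have hψa : ∀ x, ψ x = x ^ q := fun x => rfl
  have hmap : g.map ψ = g := by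
    have h1 : g.map ψ = ∏ i ∈ Finset.range d, f (i + 1) := by
      rw [hg, Polynomial.map_prod]
      refine Finset.prod_congr rfl fun i _ => ?_
      simp only [hf, Polynomial.map_sub, map_X, map_C, hψa]
      rw [← pow_mul, ← pow_succ]
    have h2 : (∏ i ∈ Finset.range d, f (i + 1)) * f 0 = (∏ i ∈ Finset.range d, f i) * f d := by
      rw [← Finset.prod_range_succ', Finset.prod_range_succ]
    have h3 : f d = f 0 := by
      simp only [hf, had, pow_zero, pow_one]
    rw [h3] at h2
    rw [h1]
    exact mul_right_cancel₀ (X_sub_C_ne_zero _) h2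
  have hlift : g ∈ Polynomial.lifts (algebraMap F (AlgebraicClosure F)) := by
    rw [Polynomial.lifts_iff_coeff_lifts]
    intro n
    apply mem_range_of_pow
    have : (g.map ψ).coeff n = g.coeff n := by rw [hmap]
    rw [Polynomial.coeff_map, hψa] at this
    exact this
  obtain ⟨g', hg'1, hg'2, hg'3⟩ := Polynomial.lifts_and_natDegree_eq_and_monic hlift hgm
  have hint : IsIntegral F a := Algebra.IsIntegral.isIntegral a
  have hga : aeval a g' = 0 := by
    rw [Polynomial.aeval_def, ← Polynomial.eval_map, hg'1, hg, Polynomial.eval_prod]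
    refine Finset.prod_eq_zero (Finset.mem_range.2 hd0) ?_
    simp [hf]
  have hdvd : minpoly F a ∣ g' := minpoly.dvd F a hga
  have hle : (minpoly F a).natDegree ≤ d := by
    rw [← hgd, ← hg'2]
    exact Polynomial.natDegree_le_of_dvd hdvd hg'3.ne_zero
  have hm0 : (minpoly F a).map (algebraMap F (AlgebraicClosure F)) ≠ 0 :=
    ((minpoly.monic hint).map _).ne_zero
  have hge : d ≤ (minpoly F a).natDegree := by
    have h1 : ((Finset.range d).image fun i => a ^ (q ^ i)).card = d := by
      rw [Finset.card_image_of_injOn, Finset.card_range]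
      intro i hi j hj
      exact hinj (by simpa using hi) (by simpa using hj)
    rw [← h1, ← Polynomial.natDegree_map (algebraMap F (AlgebraicClosure F))]
    refine Polynomial.card_le_degree_of_subset_roots ?_
    intro x hx
    rw [Finset.mem_val, Finset.mem_image] at hx
    obtain ⟨i, -, rfl⟩ := hx
    rw [Polynomial.mem_roots hm0, Polynomial.IsRoot.def, Polynomial.eval_map,
      ← Polynomial.aeval_def]
    exact frob_iter _ _ _ (minpoly.aeval F a)
  have hdeg : (minpoly F a).natDegree = d := le_antisymm hle hge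
  have heq : g' = minpoly F a := by
    refine Polynomial.eq_of_monic_of_dvd_of_natDegree_le (minpoly.monic hint) hg'3 hdvd ?_
    rw [hg'2, hgd, hdeg]
  rw [hdeg, ← heq, hg'1]
  exact ⟨hd0, hdr, had, hinj, rfl⟩

theorem DD_eq {F : Type} [Field F] [Fintype F] (r : ℕ) (a : AlgebraicClosure F) :
    DD r a = (minpoly F a) ^ (r / (minpoly F a).natDegree) := rfl

/-- `a ∈ F_{q^r}`: the polynomial `DD r a` is `∏_{i<r} (X - a^(q^i))` -/
theorem map_DD {F : Type} [Field F] [Fintype F] {r : ℕ} (hr : r ≠ 0) {a : AlgebraicClosure F} (ha : a ∈ fix F r) :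
    (DD r a).map (algebraMap F (AlgebraicClosure F)) =
      ∏ i ∈ Finset.range r, (X - C (a ^ (Fintype.card F ^ i))) := by
  obtain ⟨h1, h2, h3, -, h5⟩ := core hr ((mem_fix F hr).1 ha)
  rw [DD_eq, Polynomial.map_pow, h5]
  conv_rhs => rw [← Nat.mul_div_cancel' h2]
  rw [prod_per]
  intro i
  rw [pow_add, pow_mul, h3]

theorem DD_mon {F : Type} [Field F] [Fintype F] {r : ℕ} (hr : r ≠ 0) {a : AlgebraicClosure F} (ha : a ∈ fix F r) :
    DD r a ∈ mon F r := by
  obtain ⟨h1, h2, -⟩ := core hr ((mem_fix F hr).1 ha)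
  have hm : (minpoly F a).Monic := minpoly.monic (Algebra.IsIntegral.isIntegral a)
  rw [mem_mon, DD_eq]
  refine ⟨hm.pow _, ?_⟩
  rw [hm.natDegree_pow, Nat.div_mul_cancel h2]

theorem card_fix {F : Type} [Field F] [Fintype F] {r : ℕ} (hr : r ≠ 0) :
    (fix F r).card = Fintype.card F ^ r := by
  classical
  have h1 : 1 < Fintype.card F ^ r := Nat.one_lt_pow hr Fintype.one_lt_card
  obtain ⟨p, hp⟩ := CharP.exists F
  have : CharP (AlgebraicClosure F) p := charP_of_injective_algebraMap
    (algebraMap F (AlgebraicClosure F)).injective p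
  obtain ⟨n, hpp, hn⟩ := FiniteField.card F p
  have hdvd : p ∣ Fintype.card F ^ r := by
    rw [hn]
    exact dvd_pow (dvd_pow_self p n.ne_zero) hr
  have hsep : (X ^ (Fintype.card F ^ r) - X : (AlgebraicClosure F)[X]).Separable :=
    galois_poly_separable p _ hdvd
  unfold fix
  rw [Multiset.toFinset_card_of_nodup (Polynomial.nodup_roots hsep)]
  have hspl : (X ^ (Fintype.card F ^ r) - X : (AlgebraicClosure F)[X]).Splits :=
    IsAlgClosed.splits _
  rw [← hspl.natDegree_eq_card_roots, FiniteField.X_pow_card_sub_X_natDegree_eq _ h1]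

theorem pow_per {K : Type*} [Monoid K] {b : K} {q d : ℕ} (h : b ^ (q ^ d) = b) (k : ℕ) :
    b ^ (q ^ (d * k)) = b := by
  induction k with
  | zero => simp
  | succ k ih => rw [Nat.mul_succ, pow_add, pow_mul, ih, h]

theorem chi_pow {F : Type} [Field F] [Fintype F] (χ : F[X] → ℂ) (h1 : χ 1 = 1)
    (hmul : ∀ D E : F[X], D.Monic → E.Monic → χ (D * E) = χ D * χ E) {P : F[X]} (hP : P.Monic)
    (n : ℕ) : χ (P ^ n) = χ P ^ n := by
  induction n with
  | zero => simp [h1]
  | succ n ih => rw [pow_succ, hmul _ _ (hP.pow n) hP, ih, pow_succ]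

/-- grouping the points of `F_{q^r}` by their minimal polynomials -/
theorem TT_eq_sum_fix {F : Type} [Field F] [Fintype F] (χ : F[X] → ℂ) (h1 : χ 1 = 1)
    (hmul : ∀ D E : F[X], D.Monic → E.Monic → χ (D * E) = χ D * χ E) {r : ℕ} (hr : r ≠ 0) :
    TT χ r = ∑ a ∈ fix F r, χ (DD r a) := by
  classical
  have hmaps : ∀ a ∈ fix F r, minpoly F a ∈ r.divisors.biUnion (irr F) := by
    intro a ha
    obtain ⟨e1, e2, -⟩ := core hr ((mem_fix F hr).1 ha)
    have hint : IsIntegral F a := Algebra.IsIntegral.isIntegral a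
    rw [Finset.mem_biUnion]
    refine ⟨(minpoly F a).natDegree, Nat.mem_divisors.2 ⟨e2, hr⟩, ?_⟩
    rw [mem_irr]
    exact ⟨minpoly.monic hint, rfl, minpoly.irreducible hint⟩
  rw [← Finset.sum_fiberwise_of_maps_to hmaps]
  have hdisj : (r.divisors : Set ℕ).PairwiseDisjoint (irr F) := by
    intro i _ j _ hij
    rw [Function.onFun, Finset.disjoint_left]
    intro P hPi hPj
    rw [mem_irr] at hPi hPj
    exact hij (hPi.2.1.symm.trans hPj.2.1)
  rw [Finset.sum_biUnion hdisj]
  unfold TT
  refine Finset.sum_congr rfl fun d hd => ?_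
  rw [Finset.mul_sum]
  refine Finset.sum_congr rfl fun P hP => ?_
  rw [mem_irr] at hP
  obtain ⟨hPm, hPd, hPi⟩ := hP
  have hdr : d ∣ r := Nat.dvd_of_mem_divisors hd
  -- a root
  have hdeg : (P.map (algebraMap F (AlgebraicClosure F))).degree ≠ 0 := by
    rw [Polynomial.degree_map]
    exact (Polynomial.degree_pos_of_irreducible hPi).ne'
  obtain ⟨a, ha⟩ := IsAlgClosed.exists_root _ hdeg
  have haP : aeval a P = 0 := by
    rw [Polynomial.aeval_def, ← Polynomial.eval_map]; exact ha
  have hmin : P = minpoly F a := minpoly.eq_of_irreducible_of_monic hPi haP hPm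
  -- roots of `P` are fixed by a power of Frobenius
  have hfixP : ∀ b : AlgebraicClosure F, minpoly F b = P → b ∈ fix F r := by
    intro b hb
    -- some power of Frobenius fixes `b`
    obtain ⟨s, hs, hbs⟩ : ∃ s, s ≠ 0 ∧ b ^ (Fintype.card F ^ s) = b := by
      have hfin : Finite (IntermediateField.adjoin F {b}) := by
        have hb' : IsIntegral F b := Algebra.IsIntegral.isIntegral b
        have : FiniteDimensional F (IntermediateField.adjoin F {b}) :=
          IntermediateField.adjoin.finiteDimensional hb'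
        exact Module.finite_of_finite F
      have : Fintype (IntermediateField.adjoin F {b}) := Fintype.ofFinite _
      refine ⟨Module.finrank F (IntermediateField.adjoin F {b}), ?_, ?_⟩
      · have hb' : IsIntegral F b := Algebra.IsIntegral.isIntegral b
        have : FiniteDimensional F (IntermediateField.adjoin F {b}) :=
          IntermediateField.adjoin.finiteDimensional hb'
        exact (Module.finrank_pos).ne'
      · have hcard : Fintype.card (IntermediateField.adjoin F {b}) =
            Fintype.card F ^ Module.finrank F (IntermediateField.adjoin F {b}) :=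
          Module.card_eq_pow_finrank
        have := FiniteField.pow_card (⟨b, IntermediateField.mem_adjoin_simple_self F b⟩ :
          IntermediateField.adjoin F {b})
        rw [hcard] at this
        have h2 := congrArg (Subtype.val) this
        simpa using h2
    obtain ⟨-, -, e3, -, -⟩ := core hs hbs
    rw [mem_fix F hr]
    rw [hb, hPd] at e3
    obtain ⟨k, rfl⟩ := hdr
    exact pow_per e3 k
  have haf : a ∈ fix F r := hfixP a hmin.symm
  obtain ⟨-, -, -, c4, c5⟩ := core hr ((mem_fix F hr).1 haf)
  rw [← hmin, hPd] at c4 c5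
  have hset : (fix F r).filter (fun b => minpoly F b = P) =
      (Finset.range d).image fun i => a ^ (Fintype.card F ^ i) := by
    ext b
    rw [Finset.mem_filter, Finset.mem_image]
    constructor
    · rintro ⟨-, hb⟩
      have hb0 : (P.map (algebraMap F (AlgebraicClosure F))).eval b = 0 := by
        rw [Polynomial.eval_map, ← Polynomial.aeval_def, ← hb]
        exact minpoly.aeval F b
      rw [c5, Polynomial.eval_prod, Finset.prod_eq_zero_iff] at hb0
      obtain ⟨i, hi, hi2⟩ := hb0
      refine ⟨i, hi, ?_⟩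
      rw [Polynomial.eval_sub, Polynomial.eval_X, Polynomial.eval_C, sub_eq_zero] at hi2
      exact hi2.symm
    · rintro ⟨i, -, rfl⟩
      have h2 : P = minpoly F (a ^ (Fintype.card F ^ i)) :=
        minpoly.eq_of_irreducible_of_monic hPi (frob_iter P a i haP) hPm
      exact ⟨hfixP _ h2.symm, h2.symm⟩
  have hcard : ((fix F r).filter (fun b => minpoly F b = P)).card = d := by
    rw [hset, Finset.card_image_of_injOn, Finset.card_range]
    intro i hi j hj
    exact c4 (by simpa using hi) (by simpa using hj)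
  have hsum : ∑ b ∈ (fix F r).filter (fun b => minpoly F b = P), χ (DD r b) =
      ∑ b ∈ (fix F r).filter (fun b => minpoly F b = P), χ P ^ (r / d) := by
    refine Finset.sum_congr rfl fun b hb => ?_
    rw [DD_eq, (Finset.mem_filter.1 hb).2, hPd, chi_pow χ h1 hmul hPm]
  rw [hsum, Finset.sum_const, hcard, nsmul_eq_mul]

end Pool.Agent.H497.FF
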